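import Pool.Agent.helper65.Delta.Prod

/-!
# Productively `Δ` spaces, part 1: the combinatorial part

(*) for all `x'`, `ε`: `{g x : x' ∈ V x g, v g f ≤ ε f for f ∈ P x g}` is bounded; this implies `σ`-finiteness.
-/

set_option autoImplicit false

open Set

namespace Pool.Agent.helper55.PD

open Pool.Agent.helper65.Delta

/-- a set of functions which is covered by countably many sets of functions bounded on an infinite set -/
def Small {S : Type} (A : Set (S → ℕ)) : Prop :=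
  ∃ (T : ℕ → Set S) (N : ℕ → ℕ), (∀ j, (T j).Infinite) ∧ ∀ g ∈ A, ∃ j, ∀ x ∈ T j, g x ≤ N j

theorem Small.mono {S : Type} {A B : Set (S → ℕ)} (h : A ⊆ B) (hB : Small B) : Small A := by
  obtain ⟨T, N, h1, h2⟩ := hB
  exact ⟨T, N, h1, fun g hg => h2 g (h hg)⟩

theorem small_iUnion {S : Type} {A : ℕ → Set (S → ℕ)} (h : ∀ k, Small (A k)) : Small (⋃ k, A k) := by
  choose T N h1 h2 using h
  refine ⟨fun n => T n.unpair.1 n.unpair.2, fun n => N n.unpair.1 n.unpair.2, fun n => h1 _ _, ?_⟩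
  intro g hg
  obtain ⟨k, hk⟩ := mem_iUnion.1 hg
  obtain ⟨j, hj⟩ := h2 k g hk
  refine ⟨Nat.pair k j, ?_⟩
  simpa using hj

/-- a choice of different elements of infinite sets -/
theorem exists_inj {S : Type} (T : ℕ → Set S) (h : ∀ j, (T j).Infinite) : ∃ x : ℕ → S, Function.Injective x ∧ ∀ j, x j ∈ T j := by
  classical
  have h1 : ∀ (j : ℕ) (s : Finset S), ∃ y ∈ T j, y ∉ s := fun j s => (h j).exists_notMem_finset s
  choose c hc1 hc2 using h1
  let st : ℕ → Finset S := fun n => Nat.rec ∅ (fun n s => insert (c n s) s) n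
  have hst : ∀ n, st (n + 1) = insert (c n (st n)) (st n) := fun n => rfl
  have hmem : ∀ m n, m < n → c m (st m) ∈ st n := by
    intro m n hmn
    induction n with
    | zero => omega
    | succ n ih =>
      rw [hst]
      rcases Nat.lt_succ_iff_lt_or_eq.1 hmn with h | rfl
      · exact Finset.mem_insert_of_mem (ih h)
      · exact Finset.mem_insert_self _ _
  refine ⟨fun n => c n (st n), ?_, fun n => hc1 n (st n)⟩
  intro m n hmn
  by_contra hne
  rcases lt_or_gt_of_ne hne with h | h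
  · have := hmem m n h
    simp only at hmn
    rw [hmn] at this
    exact hc2 n (st n) this
  · have := hmem n m h
    simp only at hmn
    rw [← hmn] at this
    exact hc2 m (st m) this

theorem not_small_univ {S : Type} : ¬ Small (univ : Set (S → ℕ)) := by
  classical
  rintro ⟨T, N, h1, h2⟩
  obtain ⟨x, hx, hxT⟩ := exists_inj T h1
  obtain ⟨j, hj⟩ := h2 (fun y => if h : ∃ j, x j = y then N h.choose + 1 else 0) (mem_univ _)
  have h3 := hj (x j) (hxT j)
  have hex : ∃ i, x i = x j := ⟨j, rfl⟩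
  simp only [dif_pos hex] at h3
  rw [hx hex.choose_spec] at h3
  omega

/-- compatibility of the finite state `(C, t)` with a finite constraint `(P, v)` -/
def Cmp {W : Type} (P : Finset W) (v : W → ℕ) (C : Finset W) (t : W → ℕ) : Prop := ∀ f ∈ P, f ∈ C → v f ≤ t f

/-- compactness -/
theorem cmp_compact {ι W : Type} (P : ι → Finset W) (v : ι → W → ℕ) (N : ℕ) (k : ℕ) : ∀ A : Set ι, ∃ Γ : Finset ι, ↑Γ ⊆ A ∧
    ∀ (C : Finset W) (t : W → ℕ), C.card ≤ k → (∀ f ∈ C, t f ≤ N) → (∃ p ∈ A, Cmp (P p) (v p) C t) → ∃ p ∈ Γ, Cmp (P p) (v p) C t := by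
  classical
  induction k with
  | zero =>
    intro A
    rcases A.eq_empty_or_nonempty with rfl | ⟨p0, hp0⟩
    · exact ⟨∅, by simp, fun C t _ _ ⟨p, hp, _⟩ => absurd hp (notMem_empty p)⟩
    · refine ⟨{p0}, by simpa using hp0, fun C t hC _ _ => ⟨p0, Finset.mem_singleton_self _, ?_⟩⟩
      have : C = ∅ := Finset.card_eq_zero.1 (Nat.le_zero.1 hC)
      intro f _ hf
      rw [this] at hf
      simp at hf
  | succ k ih =>
    intro A
    rcases A.eq_empty_or_nonempty with rfl | ⟨p0, hp0⟩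
    · exact ⟨∅, by simp, fun C t _ _ ⟨p, hp, _⟩ => absurd hp (notMem_empty p)⟩
    · have ih' := fun (f : W) (c : ℕ) => ih {p ∈ A | f ∈ P p → v p f ≤ c}
      choose Γ hΓ1 hΓ2 using ih'
      refine ⟨insert p0 ((P p0).biUnion fun f => (Finset.range (N + 1)).biUnion fun c => Γ f c), ?_, ?_⟩
      · intro p hp
        rcases Finset.mem_insert.1 (Finset.mem_coe.1 hp) with rfl | hp
        · exact hp0
        · simp only [Finset.mem_biUnion] at hp
          obtain ⟨f, _, c, _, hpc⟩ := hp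
          exact (hΓ1 f c (Finset.mem_coe.2 hpc)).1
      · rintro C t hC ht ⟨p, hpA, hp⟩
        by_cases h0 : Cmp (P p0) (v p0) C t
        · exact ⟨p0, Finset.mem_insert_self _ _, h0⟩
        · unfold Cmp at h0
          push Not at h0
          obtain ⟨f, hfP, hfC, hf⟩ := h0
          obtain ⟨p', hp', hc⟩ := hΓ2 f (t f) (C.erase f) t
            (by rw [Finset.card_erase_of_mem hfC]; omega)
            (fun f' hf' => ht f' (Finset.mem_of_mem_erase hf'))
            ⟨p, ⟨hpA, fun h => hp f h hfC⟩, fun f' hf' hf'' => hp f' hf' (Finset.mem_of_mem_erase hf'')⟩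
          refine ⟨p', Finset.mem_insert_of_mem ?_, ?_⟩
          · simp only [Finset.mem_biUnion]
            exact ⟨f, hfP, t f, Finset.mem_range.2 (Nat.lt_succ_of_le (ht f hfC)), hp'⟩
          · intro f' hf' hf''
            by_cases he : f' = f
            · subst he
              exact (hΓ1 f' (t f') (Finset.mem_coe.2 hp')).2 hf'
            · exact hc f' hf' (Finset.mem_erase.2 ⟨he, hf''⟩)

/-- the functions below a state -/
def Bel {S W : Type} (v : (S → ℕ) → W → ℕ) (C : Finset W) (t : W → ℕ) : Set (S → ℕ) := {g | ∀ f ∈ C, v g f ≤ t f}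

/-- extension of rich states -/
theorem rich_extend {S W : Type} [DecidableEq W] (v : (S → ℕ) → W → ℕ) (C : Finset W) (t : W → ℕ) (h : ¬ Small (Bel v C t)) (D : Finset W)
    (w : W → ℕ) : ∃ t' : W → ℕ, (∀ f ∈ C, t' f = t f) ∧ (∀ f ∈ D, f ∉ C → w f ≤ t' f) ∧ ¬ Small (Bel v (C ∪ D) t') := by
  by_contra hcon
  push Not at hcon
  apply h
  have h1 : ∀ k : ℕ, Small (Bel v (C ∪ D) (fun f => if f ∈ C then t f else max (w f) k)) := by
    intro k
    refine hcon _ (fun f hf => if_pos hf) (fun f _ hf => ?_)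
    rw [if_neg hf]
    exact le_max_left _ _
  refine (small_iUnion h1).mono ?_
  intro g hg
  rw [mem_iUnion]
  refine ⟨D.sup (v g), ?_⟩
  intro f hf
  show v g f ≤ if f ∈ C then t f else max (w f) (D.sup (v g))
  split_ifs with hC
  · exact hg f hC
  · refine le_trans ?_ (le_max_right _ _)
    exact Finset.le_sup (f := v g) ((Finset.mem_union.1 hf).resolve_left hC)

/-- (R) -/
theorem exists_state {S W : Type} (v : (S → ℕ) → W → ℕ) (P : S → (S → ℕ) → Finset W) (V : S → (S → ℕ) → Set S) (x' : S)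
    (hb : ∀ ε : W → ℕ, ∃ M : ℕ, ∀ (x : S) (g : S → ℕ), x' ∈ V x g → (∀ f ∈ P x g, v g f ≤ ε f) → g x ≤ M) :
    ∃ (C : Finset W) (t : W → ℕ) (N : ℕ), ¬ Small (Bel v C t) ∧ ∀ (x : S) (g : S → ℕ), x' ∈ V x g → Cmp (P x g) (v g) C t → g x ≤ N := by
  classical
  by_contra hcon
  push Not at hcon
  -- the step
  have step : ∀ (n : ℕ) (s : {s : Finset W × (W → ℕ) // ¬ Small (Bel v s.1 s.2)}),
      ∃ s' : {s : Finset W × (W → ℕ) // ¬ Small (Bel v s.1 s.2)}, s.1.1 ⊆ s'.1.1 ∧ (∀ f ∈ s.1.1, s'.1.2 f = s.1.2 f) ∧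
        ∃ (x : S) (g : S → ℕ), x' ∈ V x g ∧ n < g x ∧ ∀ f ∈ P x g, f ∈ s'.1.1 ∧ v g f ≤ s'.1.2 f := by
    rintro n ⟨⟨C, t⟩, hs⟩
    obtain ⟨x, g, hx, hc, hn⟩ := hcon C t n hs
    obtain ⟨t', h1, h2, h3⟩ := rich_extend v C t hs (P x g) (v g)
    refine ⟨⟨⟨C ∪ P x g, t'⟩, h3⟩, Finset.subset_union_left, h1, x, g, hx, hn, ?_⟩
    intro f hf
    refine ⟨Finset.mem_union_right _ hf, ?_⟩
    by_cases hC : f ∈ C
    · show v g f ≤ t' f
      rw [h1 f hC]
      exact hc f hf hC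
    · exact h2 f hf hC
  choose nxt hn1 hn2 hn3 using step
  have hs0 : ¬ Small (Bel v (∅ : Finset W) (fun _ => 0)) := by
    intro h
    refine not_small_univ (S := S) (h.mono ?_)
    intro g _ f hf
    simp at hf
  let s : ℕ → {s : Finset W × (W → ℕ) // ¬ Small (Bel v s.1 s.2)} := fun n => Nat.rec ⟨⟨∅, fun _ => 0⟩, hs0⟩ (fun n s => nxt n s) n
  have hs : ∀ n, s (n + 1) = nxt n (s n) := fun n => rfl
  have hmono : ∀ m n, m ≤ n → (s m).1.1 ⊆ (s n).1.1 ∧ ∀ f ∈ (s m).1.1, (s n).1.2 f = (s m).1.2 f := by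
    intro m n hmn
    induction n, hmn using Nat.le_induction with
    | base => exact ⟨le_rfl, fun _ _ => rfl⟩
    | succ n hmn ih =>
      rw [hs]
      refine ⟨ih.1.trans (hn1 n (s n)), fun f hf => ?_⟩
      rw [hn2 n (s n) f (ih.1 hf)]
      exact ih.2 f hf
  let ε : W → ℕ := fun f => if h : ∃ n, f ∈ (s n).1.1 then (s h.choose).1.2 f else 0
  have hε : ∀ n, ∀ f ∈ (s n).1.1, ε f = (s n).1.2 f := by
    intro n f hf
    have hex : ∃ n, f ∈ (s n).1.1 := ⟨n, hf⟩
    show (if h : ∃ n, f ∈ (s n).1.1 then (s h.choose).1.2 f else 0) = _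
    rw [dif_pos hex]
    rcases le_total hex.choose n with h | h
    · exact ((hmono _ _ h).2 f hex.choose_spec).symm
    · exact (hmono _ _ h).2 f hf
  obtain ⟨M, hM⟩ := hb ε
  obtain ⟨x, g, hx, hg, hf⟩ := hn3 M (s M)
  rw [← hs] at hf
  have := hM x g hx (fun f hfP => by
    rw [hε (M + 1) f (hf f hfP).1]
    exact (hf f hfP).2)
  omega

/-- (*) implies `σ`-finiteness -/
theorem isSigmaFinite_of_bounded {S W : Type} [TopologicalSpace S] (v : (S → ℕ) → W → ℕ) (P : S → (S → ℕ) → Finset W)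
    (V : S → (S → ℕ) → Set S) (hV : ∀ x g, IsOpen (V x g)) (hVx : ∀ x g, x ∈ V x g)
    (hb : ∀ (x' : S) (ε : W → ℕ), ∃ M : ℕ, ∀ (x : S) (g : S → ℕ), x' ∈ V x g → (∀ f ∈ P x g, v g f ≤ ε f) → g x ≤ M) :
    IsSigmaFinite S := by
  classical
  choose C t N hr hN using fun x' => exists_state v P V x' (hb x')
  choose Γ hΓ1 hΓ2 using fun (x : S) (n : ℕ) => cmp_compact (P x) v n n {g : S → ℕ | n < g x}
  refine ⟨fun n => {x' | (C x').card ≤ n ∧ (∀ f ∈ C x', t x' f ≤ n) ∧ N x' ≤ n}, ?_, ?_, ?_⟩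
  · intro m n hmn x' hx'
    exact ⟨hx'.1.trans hmn, fun f hf => (hx'.2.1 f hf).trans hmn, hx'.2.2.trans hmn⟩
  · rw [eq_univ_iff_forall]
    intro x'
    rw [mem_iUnion]
    refine ⟨(C x').card + (C x').sup (t x') + N x', ?_, fun f hf => ?_, ?_⟩
    · omega
    · have := Finset.le_sup (f := t x') hf
      omega
    · omega
  · intro n
    refine ⟨fun x => ⋂ g ∈ Γ x n, V x g, fun x => isOpen_biInter_finset fun g _ => hV x g, fun x => ?_, ?_⟩
    · rw [mem_iInter₂]
      exact fun g _ => hVx x g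
    · rintro x' ⟨h1, h2, h3⟩
      by_contra hinf
      refine hr x' ⟨fun _ => {y | x' ∈ ⋂ g ∈ Γ y n, V y g}, fun _ => n, fun _ => hinf, ?_⟩
      intro g hg
      refine ⟨0, fun x hx => ?_⟩
      by_contra hlt
      push Not at hlt
      obtain ⟨g', hg', hc⟩ := hΓ2 x n (C x') (t x') h1 h2 ⟨g, hlt, fun f _ hf => hg f hf⟩
      have h4 : n < g' x := hΓ1 x n (Finset.mem_coe.2 hg')
      have h5 : x' ∈ V x g' := (mem_iInter₂.1 hx) g' hg'
      have h6 := hN x' x g' h5 hc
      omega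

end Pool.Agent.helper55.PD
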