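import Mathlib

/-!
# Productively `Δ` spaces, part 2: free transversals

For all `G`, `K` there are `B` and `γ : B → G` such that for every assignment `H : K → B → Finset B` there is a section
`σ` of `γ` with `σ g' ∉ H x (σ g)` for `g ≠ g'`. (The fibres of `γ` have quickly increasing cardinalities along a well-order of `G`.)
-/

set_option autoImplicit false

open Set Cardinal

namespace Pool.Agent.helper55.PD

theorem free_transversal (G K : Type) : ∃ (B : Type) (γ : B → G), ∀ H : K → B → Finset B,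
    ∃ σ : G → B, (∀ g, γ (σ g) = g) ∧ ∀ (g g' : G) (x : K), g ≠ g' → σ g' ∉ H x (σ g) := by
  classical
  let r : G → G → Prop := WellOrderingRel
  have wf : WellFounded r := (WellOrderingRel.isWellOrder : IsWellOrder G r).wf
  let c : Cardinal.{0} := ℵ₀ + #K + #G
  have hc0 : ℵ₀ ≤ c := (self_le_add_right ℵ₀ (#K)).trans (self_le_add_right _ (#G))
  have hcK : #K ≤ c := (self_le_add_left (#K) ℵ₀).trans (self_le_add_right _ (#G))
  have hcG : #G ≤ c := self_le_add_left (#G) _
  let F : (g : G) → ((g' : G) → r g' g → Cardinal.{0}) → Cardinal.{0} := fun g ih =>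
    Order.succ (2 ^ (c + Cardinal.sum (fun p : {g' // r g' g} => ih p.1 p.2)))
  let lam : G → Cardinal.{0} := wf.fix F
  let s : G → Cardinal.{0} := fun g => Cardinal.sum (fun p : {g' // r g' g} => lam p.1)
  have hlam : ∀ g, lam g = Order.succ (2 ^ (c + s g)) := fun g => wf.fix_eq F g
  let I : G → Type := fun g => (lam g).out
  have hI : ∀ g, #(I g) = lam g := fun g => mk_out (lam g)
  have hlow : ∀ g, #{b : (Σ g, I g) // r b.1 g} ≤ s g := by
    intro g
    have h1 : #(Σ p : {g' // r g' g}, I p.1) = s g := by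
      rw [mk_sigma]
      simp only [hI]
      rfl
    rw [← h1]
    refine mk_le_of_injective (f := fun b => ⟨⟨b.1.1, b.2⟩, b.1.2⟩) ?_
    rintro ⟨⟨a, i⟩, h⟩ ⟨⟨a', i'⟩, h'⟩ he
    simp only [Sigma.mk.injEq, Subtype.mk.injEq] at he
    obtain ⟨rfl, he⟩ := he
    simp only [heq_eq_eq] at he
    subst he
    rfl
  refine ⟨Σ g, I g, Sigma.fst, ?_⟩
  intro H
  let Sx : (Σ g, I g) → Set (Σ g, I g) := fun b => ⋃ x, (H x b : Set (Σ g, I g))
  have hSx : ∀ b, #(Sx b) ≤ c := by
    intro b
    refine mk_iUnion_le_sum_mk.trans ?_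
    refine (sum_le_sum _ (fun _ => ℵ₀) fun x => ?_).trans ?_
    · exact (lt_aleph0_iff_finite.2 (Finset.finite_toSet (H x b)).to_subtype).le
    · rw [sum_const']
      exact (mul_le_mul' hcK hc0).trans (mul_eq_self hc0).le
  let φ : (g : G) → I g → Set {b : (Σ g, I g) // r b.1 g} := fun g i => Subtype.val ⁻¹' (Sx ⟨g, i⟩)
  have hμ : ∀ g, ℵ₀ ≤ c + s g := fun g => hc0.trans (self_le_add_right _ _)
  have h2μ : ∀ g, c + s g < 2 ^ (c + s g) := fun g => cantor _
  have hpig : ∀ g, ∃ R : Set {b : (Σ g, I g) // r b.1 g}, lam g ≤ #(φ g ⁻¹' {R}) := by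
    intro g
    refine infinite_pigeonhole_card (φ g) (lam g) (hI g).ge ?_ ?_
    · rw [hlam]
      exact ((hμ g).trans (h2μ g).le).trans (Order.le_succ _)
    · have hreg : (lam g).IsRegular := by
        rw [hlam]
        exact isRegular_succ ((hμ g).trans (h2μ g).le)
      rw [hreg.cof_ord, hlam, mk_set]
      refine lt_of_le_of_lt ?_ (Order.lt_succ _)
      exact power_le_power_left two_ne_zero ((hlow g).trans (self_le_add_left _ _))
  choose R hR using hpig
  have hRc : ∀ g, #(R g) ≤ c := by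
    intro g
    have hne : (φ g ⁻¹' {R g}).Nonempty := by
      rw [nonempty_iff_ne_empty]
      intro h0
      have h1 := hR g
      rw [h0, mk_eq_zero, hlam] at h1
      exact absurd h1 (not_le.2 (lt_of_le_of_lt zero_le (Order.lt_succ _)))
    obtain ⟨i, hi⟩ := hne
    have hi' : φ g i = R g := hi
    rw [← hi']
    exact (mk_preimage_of_injective _ _ Subtype.val_injective).trans (hSx _)
  let A1 : (g : G) → Set (I g) := fun g => ⋃ g' : G, (Sigma.mk g) ⁻¹' (Subtype.val '' R g')
  let A2 : (g : G) → Set (I g) := fun g => ⋃ b : {b : (Σ g, I g) // r b.1 g}, (Sigma.mk g) ⁻¹' (Sx b.1)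
  have hinj : ∀ g : G, Function.Injective (Sigma.mk g : I g → Σ g, I g) := fun g => sigma_mk_injective
  have hA : ∀ g, #(A1 g ∪ A2 g : Set (I g)) < lam g := by
    intro g
    have h1 : #(A1 g) ≤ c + s g := by
      refine mk_iUnion_le_sum_mk.trans ?_
      refine (sum_le_sum _ (fun _ => c) fun g' => ?_).trans ?_
      · exact (mk_preimage_of_injective _ _ (hinj g)).trans (mk_image_le.trans (hRc g'))
      · rw [sum_const']
        exact ((mul_le_mul' hcG le_rfl).trans (mul_eq_self hc0).le).trans (self_le_add_right _ _)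
    have h2 : #(A2 g) ≤ c + s g := by
      refine mk_iUnion_le_sum_mk.trans ?_
      refine (sum_le_sum _ (fun _ => c) fun b => ?_).trans ?_
      · exact (mk_preimage_of_injective _ _ (hinj g)).trans (hSx b.1)
      · rw [sum_const']
        exact (mul_le_mul' ((hlow g).trans (self_le_add_left _ _)) (self_le_add_right _ _)).trans (mul_eq_self (hμ g)).le
    refine (mk_union_le _ _).trans_lt ?_
    refine (add_le_add h1 h2).trans_lt ?_
    rw [add_eq_self (hμ g), hlam]
    exact (h2μ g).trans (Order.lt_succ _)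
  have hex : ∀ g, ∃ i : I g, φ g i = R g ∧ i ∉ A1 g ∧ i ∉ A2 g := by
    intro g
    by_contra hcon
    push Not at hcon
    have hsub : φ g ⁻¹' {R g} ⊆ A1 g ∪ A2 g := by
      intro i hi
      by_cases h1 : i ∈ A1 g
      · exact Or.inl h1
      · exact Or.inr (hcon i hi h1)
    exact absurd ((hR g).trans (mk_le_mk_of_subset hsub)) (not_le.2 (hA g))
  choose i hi1 hi2 hi3 using hex
  refine ⟨fun g => ⟨g, i g⟩, fun g => rfl, ?_⟩
  intro g g' x hne hmem
  have hS : (⟨g', i g'⟩ : Σ g, I g) ∈ Sx ⟨g, i g⟩ := mem_iUnion.2 ⟨x, hmem⟩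
  haveI : IsWellOrder G r := WellOrderingRel.isWellOrder
  have htri : r g g' ∨ g = g' ∨ r g' g := trichotomous_of r g g'
  rcases htri with h | h | h
  · -- `g` is below `g'`
    exact hi3 g' (mem_iUnion.2 ⟨⟨⟨g, i g⟩, h⟩, hS⟩)
  · exact hne h
  · -- `g'` is below `g`
    refine hi2 g' (mem_iUnion.2 ⟨g, ⟨⟨⟨g', i g'⟩, h⟩, ?_, rfl⟩⟩)
    rw [← hi1 g]
    exact hS

end Pool.Agent.helper55.PD
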