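import Pool.Agent.helper55.PD.Comb
import Pool.Agent.helper55.PD.FT

/-!
# Productively `Δ` spaces, part 3: the test space and the theorem
-/

set_option autoImplicit false

open Set

namespace Pool.Agent.helper55.PD

open Pool.Agent.helper65.Delta

/-- `Δ`-spaces in terms of functions -/
theorem isDelta_iff {Z : Type} [TopologicalSpace Z] : IsDelta Z ↔ ∀ f : Z → ℕ, ∃ O : Z → Set Z, (∀ z, IsOpen (O z)) ∧
    (∀ z, z ∈ O z) ∧ ∀ w, ∃ M : ℕ, ∀ z, w ∈ O z → f z ≤ M := by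
  classical
  constructor
  · intro h f
    obtain ⟨V, hV1, hV2, hV3, hV4⟩ := h (fun n => {z | n ≤ f z}) (fun m n hmn z hz => le_trans hmn hz) (by
      rw [eq_empty_iff_forall_notMem]
      intro z hz
      have := mem_iInter.1 hz (f z + 1)
      simp at this)
    refine ⟨fun z => V (f z), fun z => hV2 _, fun z => hV3 (f z) (le_refl (f z)), ?_⟩
    intro w
    by_contra hcon
    push Not at hcon
    have hw : w ∈ ⋂ n, V n := by
      rw [mem_iInter]
      intro n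
      obtain ⟨z, hz, hn⟩ := hcon n
      exact hV1 hn.le hz
    rw [hV4] at hw
    exact hw
  · intro h D hD hDe
    have hex : ∀ z, ∃ n, z ∉ D n := by
      intro z
      by_contra hcon
      push Not at hcon
      have : z ∈ ⋂ n, D n := mem_iInter.2 hcon
      rw [hDe] at this
      exact this
    obtain ⟨O, hO1, hO2, hO3⟩ := h (fun z => Nat.find (hex z))
    refine ⟨fun n => ⋃ z, ⋃ (_ : n < Nat.find (hex z)), O z, ?_, ?_, ?_, ?_⟩
    · intro m n hmn w hw
      simp only [mem_iUnion] at hw ⊢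
      obtain ⟨z, hz, hw⟩ := hw
      exact ⟨z, lt_of_le_of_lt hmn hz, hw⟩
    · intro n
      exact isOpen_iUnion fun z => isOpen_iUnion fun _ => hO1 z
    · intro n z hz
      simp only [mem_iUnion]
      refine ⟨z, ?_, hO2 z⟩
      by_contra hle
      push Not at hle
      exact Nat.find_spec (hex z) (hD hle hz)
    · rw [eq_empty_iff_forall_notMem]
      intro w hw
      obtain ⟨M, hM⟩ := hO3 w
      have := mem_iInter.1 hw M
      simp only [mem_iUnion] at this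
      obtain ⟨z, hz, hwz⟩ := this
      exact absurd (hM z hwz) (not_le.2 hz)

theorem isDelta_swap {X Y : Type} [TopologicalSpace X] [TopologicalSpace Y] (h : IsDelta (X × Y)) : IsDelta (Y × X) := by
  intro D hD hDe
  obtain ⟨V, hV1, hV2, hV3, hV4⟩ := h (fun n => Prod.swap ⁻¹' D n) (fun m n hmn p hp => hD hmn hp) (by
    rw [eq_empty_iff_forall_notMem]
    intro p hp
    have : p.swap ∈ ⋂ n, D n := mem_iInter.2 fun n => mem_iInter.1 hp n
    rw [hDe] at this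
    exact this)
  refine ⟨fun n => Prod.swap ⁻¹' V n, fun m n hmn p hp => hV1 hmn hp, fun n => (hV2 n).preimage continuous_swap,
    fun n p hp => hV3 n (by simpa using hp), ?_⟩
  rw [eq_empty_iff_forall_notMem]
  intro p hp
  have : p.swap ∈ ⋂ n, V n := mem_iInter.2 fun n => mem_iInter.1 hp n
  rw [hV4] at this
  exact this

/-! ## The test space -/

/-- the isolated points -/
def Iso (B : Type) : Type := {e : ((B → ℕ) → ℕ) × Set B // e.2.Nontrivial}

/-- the test space over `B` -/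
def TS (B : Type) : Type := B ⊕ Iso B

/-- the isolated points of the basic neighbourhood `(F, H)` of `b` -/
def Nb {B : Type} (b : B) (F : Finset (B → ℕ)) (H : Finset B) (e : Iso B) : Prop :=
  (∀ f ∈ F, f b ≤ e.1.1 f) ∧ b ∈ e.1.2 ∧ ∀ h ∈ H, h ∉ e.1.2

/-- the point of the closed discrete part -/
def pt {B : Type} (b : B) : TS B := Sum.inl b

/-- the isolated point -/
def iso {B : Type} (e : Iso B) : TS B := Sum.inr e

theorem pt_ne_iso {B : Type} (b : B) (e : Iso B) : pt b ≠ iso e := Sum.inl_ne_inr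

theorem pt_inj {B : Type} {b b' : B} (h : pt b = pt b') : b = b' := Sum.inl_injective h

theorem iso_inj {B : Type} {e e' : Iso B} (h : iso e = iso e') : e = e' := Sum.inr_injective h

theorem TS_cases {B : Type} (y : TS B) : (∃ b, y = pt b) ∨ ∃ e, y = iso e := by
  rcases y with b | e
  · exact Or.inl ⟨b, rfl⟩
  · exact Or.inr ⟨e, rfl⟩

open Classical in
instance TS_top (B : Type) : TopologicalSpace (TS B) where
  IsOpen U := ∀ b, pt b ∈ U → ∃ (F : Finset (B → ℕ)) (H : Finset B), b ∉ H ∧ ∀ e, Nb b F H e → iso e ∈ U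
  isOpen_univ := fun b _ => ⟨∅, ∅, by simp, fun _ _ => mem_univ _⟩
  isOpen_inter := by
    intro U V hU hV b hb
    obtain ⟨F1, H1, h1, k1⟩ := hU b hb.1
    obtain ⟨F2, H2, h2, k2⟩ := hV b hb.2
    refine ⟨F1 ∪ F2, H1 ∪ H2, ?_, ?_⟩
    · rw [Finset.mem_union]
      exact fun h => h.elim h1 h2
    · intro e he
      exact ⟨k1 e ⟨fun f hf => he.1 f (Finset.mem_union_left _ hf), he.2.1, fun h hh => he.2.2 h (Finset.mem_union_left _ hh)⟩,
        k2 e ⟨fun f hf => he.1 f (Finset.mem_union_right _ hf), he.2.1, fun h hh => he.2.2 h (Finset.mem_union_right _ hh)⟩⟩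
  isOpen_sUnion := by
    intro T hT b hb
    obtain ⟨U, hU, hbU⟩ := hb
    obtain ⟨F, H, h1, k1⟩ := hT U hU b hbU
    exact ⟨F, H, h1, fun e he => ⟨U, hU, k1 e he⟩⟩

theorem TS_isOpen {B : Type} {U : Set (TS B)} :
    IsOpen U ↔ ∀ b, pt b ∈ U → ∃ (F : Finset (B → ℕ)) (H : Finset B), b ∉ H ∧ ∀ e, Nb b F H e → iso e ∈ U := Iff.rfl

/-- basic neighbourhoods -/
def Ob {B : Type} (b : B) (F : Finset (B → ℕ)) (H : Finset B) : Set (TS B) := {y | y = pt b ∨ ∃ e, y = iso e ∧ Nb b F H e}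

theorem pt_mem_Ob {B : Type} (b : B) (F : Finset (B → ℕ)) (H : Finset B) : pt b ∈ Ob b F H := Or.inl rfl

theorem pt_mem_Ob_iff {B : Type} {b b' : B} {F : Finset (B → ℕ)} {H : Finset B} : pt b' ∈ Ob b F H ↔ b' = b := by
  constructor
  · rintro (h | ⟨e, h, _⟩)
    · exact pt_inj h
    · exact absurd h (pt_ne_iso b' e)
  · rintro rfl
    exact pt_mem_Ob _ _ _

theorem iso_mem_Ob_iff {B : Type} {b : B} {e : Iso B} {F : Finset (B → ℕ)} {H : Finset B} : iso e ∈ Ob b F H ↔ Nb b F H e := by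
  constructor
  · rintro (h | ⟨e', h, he⟩)
    · exact absurd h.symm (pt_ne_iso b e)
    · rwa [iso_inj h]
  · intro h
    exact Or.inr ⟨e, rfl, h⟩

theorem isOpen_Ob {B : Type} (b : B) (F : Finset (B → ℕ)) (H : Finset B) (hb : b ∉ H) : IsOpen (Ob b F H) := by
  rw [TS_isOpen]
  intro b' hb'
  rw [pt_mem_Ob_iff] at hb'
  subst hb'
  exact ⟨F, H, hb, fun e he => iso_mem_Ob_iff.2 he⟩

theorem isOpen_iso {B : Type} (e : Iso B) : IsOpen ({iso e} : Set (TS B)) := by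
  rw [TS_isOpen]
  intro b hb
  exact absurd hb (pt_ne_iso b e)

theorem isClosed_pts {B : Type} (A : Set (TS B)) (hA : A ⊆ range pt) : IsClosed A := by
  rw [← isOpen_compl_iff, TS_isOpen]
  intro b hb
  refine ⟨∅, ∅, by simp, fun e _ he => ?_⟩
  obtain ⟨b', hb'⟩ := hA he
  exact pt_ne_iso b' e hb'

theorem isClopen_Ob {B : Type} (b : B) (F : Finset (B → ℕ)) (H : Finset B) (hb : b ∉ H) : IsClopen (Ob b F H) := by
  refine ⟨?_, isOpen_Ob b F H hb⟩
  rw [← isOpen_compl_iff, TS_isOpen]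
  intro b' hb'
  have hne : b' ≠ b := fun h => hb' (pt_mem_Ob_iff.2 h)
  refine ⟨∅, {b}, by simpa using hne, fun e he he' => ?_⟩
  exact he.2.2 b (Finset.mem_singleton_self b) (iso_mem_Ob_iff.1 he').2.1

theorem exists_notMem_Ob {B : Type} (b : B) (e : Iso B) : ∃ h, b ∉ ({h} : Finset B) ∧ iso e ∉ Ob b ∅ {h} := by
  obtain ⟨h, hh, hne⟩ := e.2.exists_ne b
  refine ⟨h, by simpa using hne.symm, fun he => ?_⟩
  exact (iso_mem_Ob_iff.1 he).2.2 h (Finset.mem_singleton_self h) hh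

theorem isClopen_iso {B : Type} (e : Iso B) : IsClopen ({iso e} : Set (TS B)) := by
  refine ⟨?_, isOpen_iso e⟩
  rw [← isOpen_compl_iff, TS_isOpen]
  intro b _
  obtain ⟨h, hb, hn⟩ := exists_notMem_Ob b e
  refine ⟨∅, {h}, hb, fun e' he' hee => ?_⟩
  have h1 : e' = e := iso_inj hee
  subst h1
  exact hn (iso_mem_Ob_iff.2 he')

theorem TS_zeroDim {B : Type} (y : TS B) (U : Set (TS B)) (hU : IsOpen U) (hy : y ∈ U) : ∃ V ⊆ U, IsClopen V ∧ y ∈ V := by
  rcases TS_cases y with ⟨b, rfl⟩ | ⟨e, rfl⟩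
  · obtain ⟨F, H, hb, he⟩ := TS_isOpen.1 hU b hy
    refine ⟨Ob b F H, ?_, isClopen_Ob b F H hb, pt_mem_Ob b F H⟩
    rintro y (rfl | ⟨e, rfl, h⟩)
    · exact hy
    · exact he e h
  · exact ⟨{iso e}, by simpa using hy, isClopen_iso e, rfl⟩

theorem TS_t2 (B : Type) : T2Space (TS B) := by
  have h0 : ∀ (y z : TS B), y ≠ z → ∃ V : Set (TS B), IsClopen V ∧ y ∈ V ∧ z ∉ V := by
    intro y z hyz
    rcases TS_cases y with ⟨b, rfl⟩ | ⟨e, rfl⟩
    · rcases TS_cases z with ⟨b', rfl⟩ | ⟨e, rfl⟩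
      · refine ⟨Ob b ∅ ∅, isClopen_Ob b ∅ ∅ (by simp), pt_mem_Ob _ _ _, fun h => hyz ?_⟩
        rw [pt_mem_Ob_iff.1 h]
      · obtain ⟨h, hb, hn⟩ := exists_notMem_Ob b e
        exact ⟨Ob b ∅ {h}, isClopen_Ob b ∅ {h} hb, pt_mem_Ob _ _ _, hn⟩
    · exact ⟨{iso e}, isClopen_iso e, rfl, fun h => hyz h.symm⟩
  refine ⟨fun y z hyz => ?_⟩
  obtain ⟨V, hV, h1, h2⟩ := h0 y z hyz
  exact ⟨V, Vᶜ, hV.2, hV.1.isOpen_compl, h1, h2, disjoint_compl_right⟩

theorem TS_isDelta (B : Type) : IsDelta (TS B) := by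
  classical
  rw [isDelta_iff]
  intro f
  have h0 : ∀ y : TS B, ∃ O : Set (TS B), IsOpen O ∧ y ∈ O ∧ (∀ b, pt b ∈ O → y = pt b) ∧
      ∀ e, iso e ∈ O → y = iso e ∨ ∃ b, y = pt b ∧ f (pt b) ≤ e.1.1 (fun b => f (pt b)) := by
    intro y
    rcases TS_cases y with ⟨b, rfl⟩ | ⟨e, rfl⟩
    · refine ⟨Ob b {fun b => f (pt b)} ∅, isOpen_Ob _ _ _ (by simp), pt_mem_Ob _ _ _, fun b' hb' => ?_, fun e he => Or.inr ⟨b, rfl, ?_⟩⟩
      · rw [pt_mem_Ob_iff.1 hb']
      · exact (iso_mem_Ob_iff.1 he).1 (fun b => f (pt b)) (Finset.mem_singleton_self _)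
    · exact ⟨{iso e}, isOpen_iso e, rfl, fun b hb => hb.symm, fun e' he' => Or.inl he'.symm⟩
  choose O hO1 hO2 hO3 hO4 using h0
  refine ⟨O, hO1, hO2, fun w => ?_⟩
  rcases TS_cases w with ⟨b, rfl⟩ | ⟨e, rfl⟩
  · refine ⟨f (pt b), fun z hz => ?_⟩
    rw [hO3 z b hz]
  · refine ⟨max (f (iso e)) (e.1.1 (fun b => f (pt b))), fun z hz => ?_⟩
    rcases hO4 z e hz with rfl | ⟨b, rfl, hb⟩
    · exact le_max_left _ _
    · exact hb.trans (le_max_right _ _)

/-- the function on the product -/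
def Fn {S B : Type} (γ : B → S → ℕ) : S × TS B → ℕ
  | (x, Sum.inl b) => γ b x
  | (_, Sum.inr _) => 0

theorem main {S B : Type} [TopologicalSpace S] [Nonempty S] (γ : B → S → ℕ)
    (hγ : ∀ H : S → B → Finset B, ∃ σ : (S → ℕ) → B, (∀ g, γ (σ g) = g) ∧ ∀ (g g' : S → ℕ) (x : S), g ≠ g' → σ g' ∉ H x (σ g))
    (h : IsDelta (S × TS B)) : IsSigmaFinite S := by
  classical
  obtain ⟨O, hO1, hO2, hO3⟩ := isDelta_iff.1 h (Fn γ)
  have h1 : ∀ (x : S) (b : B), ∃ (V : Set S) (F : Finset (B → ℕ)) (H : Finset B), IsOpen V ∧ x ∈ V ∧ b ∉ H ∧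
      ∀ x' ∈ V, ∀ e, Nb b F H e → (x', iso e) ∈ O (x, pt b) := by
    intro x b
    obtain ⟨V, U, hV, hU, hx, hb, hVU⟩ := isOpen_prod_iff.1 (hO1 (x, pt b)) x (pt b) (hO2 _)
    obtain ⟨F, H, hbH, he⟩ := TS_isOpen.1 hU b hb
    exact ⟨V, F, H, hV, hx, hbH, fun x' hx' e hNb => hVU ⟨hx', he e hNb⟩⟩
  choose V F H hV hx hbH hNb using h1
  obtain ⟨σ, hσ1, hσ2⟩ := hγ H
  refine isSigmaFinite_of_bounded (W := B → ℕ) (fun g f => f (σ g)) (fun x g => F x (σ g)) (fun x g => V x (σ g))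
    (fun x g => hV x (σ g)) (fun x g => hx x (σ g)) ?_
  intro x' ε
  have hnt : (range σ).Nontrivial := by
    refine ⟨σ (fun _ => 0), mem_range_self _, σ (fun _ => 1), mem_range_self _, fun h01 => ?_⟩
    have h2 := congrArg γ h01
    rw [hσ1, hσ1] at h2
    have h3 := congrFun h2 (Classical.arbitrary S)
    simp at h3
  obtain ⟨M, hM⟩ := hO3 (x', iso ⟨(ε, range σ), hnt⟩)
  refine ⟨M, fun x g hxV hf => ?_⟩
  have h2 := hM (x, pt (σ g)) (hNb x (σ g) x' hxV _ ⟨hf, mem_range_self g, ?_⟩)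
  · have h3 : Fn γ (x, pt (σ g)) = g x := by
      show γ (σ g) x = g x
      rw [hσ1]
    rwa [h3] at h2
  · rintro b hb ⟨g', rfl⟩
    by_cases hg : g = g'
    · subst hg
      exact hbH x (σ g) hb
    · exact hσ2 g g' x hg hb

theorem isSigmaFinite_of_finite {S : Type} [TopologicalSpace S] (h : Finite S) : IsSigmaFinite S := by
  refine ⟨fun _ => univ, fun _ _ _ => le_rfl, iUnion_const _, fun _ => ⟨fun _ => univ, fun _ => isOpen_univ, fun _ => mem_univ _, fun _ _ => ?_⟩⟩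
  exact toFinite _

/-- the test space for all topologies on `S` -/
theorem test_space (S : Type) : ∃ (Y : Type) (_ : TopologicalSpace Y) (A : Set Y), T2Space Y ∧
    (∀ (y : Y) (U : Set Y), IsOpen U → y ∈ U → ∃ V ⊆ U, IsClopen V ∧ y ∈ V) ∧
    (∀ B ⊆ A, IsClosed B) ∧ (∀ y ∉ A, IsOpen {y}) ∧ IsDelta Y ∧
    ∀ _ : TopologicalSpace S, IsSigmaFinite S ↔ IsDelta (S × Y) := by
  classical
  obtain ⟨B, γ, hγ⟩ := free_transversal (S → ℕ) S
  refine ⟨TS B, TS_top B, range pt, TS_t2 B, TS_zeroDim, isClosed_pts, ?_, TS_isDelta B, ?_⟩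
  · intro y hy
    rcases TS_cases y with ⟨b, rfl⟩ | ⟨e, rfl⟩
    · exact absurd (mem_range_self b) hy
    · exact isOpen_iso e
  · intro tS
    constructor
    · intro h
      exact isDelta_swap ((TS_isDelta B).prod h)
    · intro h
      rcases isEmpty_or_nonempty S with hS | hS
      · exact isSigmaFinite_of_finite inferInstance
      · exact main γ hγ h

/-- **The productively `Δ` spaces are the `σ`-finite spaces.** -/
theorem productive_iff (X : Type) [TopologicalSpace X] :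
    IsSigmaFinite X ↔ ∀ (Y : Type) [TopologicalSpace Y], IsDelta Y → IsDelta (X × Y) := by
  constructor
  · intro h Y _ hY
    exact isDelta_swap (hY.prod h)
  · intro h
    obtain ⟨Y, tY, A, _, _, _, _, hY, hiff⟩ := test_space X
    exact (hiff _).2 (h Y hY)

end Pool.Agent.helper55.PD
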